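import Mathlib

/-!
# A regular `(1,2)`-realizable graph which is not vertex-transitive

Let `f` be a cubic bent function on `𝔽_2^6` with `f(0) = 0`.  The graph `G` on `𝔽_2^6 × 𝔽_2` in which
`(x,a)` and `(y,b)` are adjacent when `x ≠ y` and `f(x+y) = a + b` is a Cayley graph; the first and the
second neighbourhoods of each of its vertices are isomorphic to the graph `H` on `𝔽_2^6 \ {0}` in
which `y ≠ z` are adjacent when `f(y+z) = f(y) + f(z)`.  `H` is `30`-regular, but not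
vertex-transitive.
-/

open SimpleGraph

namespace Pool.Agent.Results.MP_824d98_co.BentNeighbourhoods

/-- The `k`-neighbourhood `N_k(x,G)`: the set of the vertices at distance exactly `k` from `x`
(for `k ≥ 1`). -/
def nbhd {V : Type} (G : SimpleGraph V) (x : V) (k : ℕ) : Set V :=
  {v | G.Reachable x v ∧ G.dist x v = k}

/-- `H` is `(1,2)`-realizable: some (non-empty, finite) graph `G` has all its first and second
neighbourhoods (as induced subgraphs) isomorphic to `H`. -/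
def IsRealizable12 {W : Type} (H : SimpleGraph W) : Prop :=
  ∃ (V : Type) (_ : Nonempty V) (_ : Finite V) (G : SimpleGraph V), ∀ x : V,
    Nonempty (G.induce (nbhd G x 1) ≃g H) ∧ Nonempty (G.induce (nbhd G x 2) ≃g H)

/-- The automorphism group acts transitively on the vertices. -/
def IsVertexTransitive {W : Type} (H : SimpleGraph W) : Prop :=
  ∀ x y : W, ∃ φ : H ≃g H, φ x = y

/-- The truth table of the cubic bent function
`x1x2x3 + x2x4x5 + x1x2 + x1x4 + x2x6 + x3x5 + x4x5` on `𝔽_2^6 = {0,…,63}`. -/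
def f (x : ℕ) : Bool := Nat.testBit 12480722257086816776 x

/-- addition in `𝔽_2^6` -/
def xo (x y : Fin 64) : Fin 64 := ⟨x.val ^^^ y.val, Nat.xor_lt_two_pow (n := 6) x.isLt y.isLt⟩

lemma xo_comm (x y : Fin 64) : xo x y = xo y x := Fin.ext (Nat.xor_comm _ _)

lemma xo_assoc (x y z : Fin 64) : xo (xo x y) z = xo x (xo y z) := Fin.ext (Nat.xor_assoc _ _ _)

lemma xo_self (x : Fin 64) : xo x x = 0 := Fin.ext (Nat.xor_self _)

lemma xo_zero (x : Fin 64) : xo x 0 = x := Fin.ext (Nat.xor_zero _)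

lemma zero_xo (x : Fin 64) : xo 0 x = x := by rw [xo_comm, xo_zero]

lemma xo_eq_zero {x y : Fin 64} : xo x y = 0 ↔ x = y := by
  constructor
  · intro h
    have h1 := congrArg (xo · y) h
    simp only [xo_assoc, xo_self, xo_zero, zero_xo] at h1
    exact h1
  · rintro rfl
    exact xo_self x

/-- cancellation of a common summand -/
lemma xo_xo_xo (x y u : Fin 64) : xo (xo x u) (xo y u) = xo x y := by
  rw [xo_assoc, ← xo_assoc u y u, xo_comm u y, xo_assoc y u u, xo_self, xo_zero]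

/-- The graph `G`. -/
def G : SimpleGraph (Fin 64 × Bool) where
  Adj p q := p.1 ≠ q.1 ∧ f (xo p.1 q.1) = (p.2 ^^ q.2)
  symm := ⟨fun p q h => ⟨h.1.symm, by rw [xo_comm, h.2, Bool.xor_comm]⟩⟩
  loopless := ⟨fun _ h => h.1 rfl⟩

/-- The graph `H`. -/
def H : SimpleGraph {y : Fin 64 // y ≠ 0} where
  Adj y z := y.1 ≠ z.1 ∧ f (xo y.1 z.1) = (f y.1 ^^ f z.1)
  symm := ⟨fun p q h => ⟨h.1.symm, by rw [xo_comm, h.2, Bool.xor_comm]⟩⟩
  loopless := ⟨fun _ h => h.1 rfl⟩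

instance : DecidableRel H.Adj := fun y z =>
  inferInstanceAs (Decidable (y.1 ≠ z.1 ∧ f (xo y.1 z.1) = (f y.1 ^^ f z.1)))

/-- The translations are automorphisms of `G`. -/
def trans (u : Fin 64 × Bool) : G ≃g G where
  toFun p := (xo p.1 u.1, p.2 ^^ u.2)
  invFun p := (xo p.1 u.1, p.2 ^^ u.2)
  left_inv p := by
    rcases p with ⟨x, a⟩
    simp [xo_assoc, xo_self, xo_zero]
  right_inv p := by
    rcases p with ⟨x, a⟩
    simp [xo_assoc, xo_self, xo_zero]
  map_rel_iff' := by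
    rintro ⟨x, a⟩ ⟨y, b⟩
    show (xo x u.1 ≠ xo y u.1 ∧ f (xo (xo x u.1) (xo y u.1)) = ((a ^^ u.2) ^^ (b ^^ u.2))) ↔
      (x ≠ y ∧ f (xo x y) = (a ^^ b))
    rw [xo_xo_xo]
    have h1 : xo x u.1 ≠ xo y u.1 ↔ x ≠ y := by
      rw [ne_eq, ← xo_eq_zero, xo_xo_xo, xo_eq_zero]
    have h2 : ((a ^^ u.2) ^^ (b ^^ u.2)) = (a ^^ b) := by
      cases a <;> cases b <;> cases u.2 <;> rfl
    rw [h1, h2]

lemma trans_zero (u : Fin 64 × Bool) : trans u (0, false) = u := by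
  show (xo 0 u.1, false ^^ u.2) = u
  rw [zero_xo, Bool.false_xor]

lemma dist_le_of_iso {V : Type} {G : SimpleGraph V} (φ : G ≃g G) {x v : V}
    (h : G.Reachable x v) : G.dist (φ x) (φ v) ≤ G.dist x v := by
  obtain ⟨p, hp⟩ := h.exists_walk_length_eq_dist
  rw [← hp, ← Walk.length_map φ.toHom p]
  exact dist_le _

lemma dist_iso {V : Type} {G : SimpleGraph V} (φ : G ≃g G) {x v : V} (h : G.Reachable x v) :
    G.dist (φ x) (φ v) = G.dist x v := by
  refine le_antisymm (dist_le_of_iso φ h) ?_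
  have h1 : G.Reachable (φ x) (φ v) := Iso.reachable_iff.mpr h
  have h2 := dist_le_of_iso φ.symm h1
  simpa using h2

/-- Automorphisms preserve neighbourhoods. -/
lemma nbhd_iso {V : Type} {G : SimpleGraph V} (φ : G ≃g G) (x : V) (k : ℕ) (v : V) :
    φ v ∈ nbhd G (φ x) k ↔ v ∈ nbhd G x k := by
  constructor
  · rintro ⟨h1, h2⟩
    have h3 : G.Reachable x v := Iso.reachable_iff.mp h1
    exact ⟨h3, by rw [← h2, dist_iso φ h3]⟩
  · rintro ⟨h1, h2⟩
    exact ⟨Iso.reachable_iff.mpr h1, by rw [dist_iso φ h1, h2]⟩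

/-- The first neighbourhood. -/
lemma mem_nbhd_one {V : Type} {G : SimpleGraph V} {x v : V} : v ∈ nbhd G x 1 ↔ G.Adj x v := by
  constructor
  · rintro ⟨_, h2⟩
    exact dist_eq_one_iff_adj.mp h2
  · intro h
    exact ⟨h.reachable, dist_eq_one_iff_adj.mpr h⟩

/-- The second neighbourhood. -/
lemma mem_nbhd_two {V : Type} {G : SimpleGraph V} {x v : V} :
    v ∈ nbhd G x 2 ↔ x ≠ v ∧ ¬ G.Adj x v ∧ ∃ w, G.Adj x w ∧ G.Adj w v := by
  constructor
  · rintro ⟨h1, h2⟩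
    refine ⟨?_, ?_, ?_⟩
    · rintro rfl
      simp at h2
    · intro h
      rw [dist_eq_one_iff_adj.mpr h] at h2
      omega
    · obtain ⟨p, hp⟩ := h1.exists_walk_length_eq_dist
      rw [h2] at hp
      match p, hp with
      | Walk.cons ha (Walk.cons hb Walk.nil), _ => exact ⟨_, ha, hb⟩
  · rintro ⟨hne, hadj, w, h1, h2⟩
    have hr : G.Reachable x v := h1.reachable.trans h2.reachable
    refine ⟨hr, ?_⟩
    have h3 : G.dist x v ≤ 2 := dist_le (Walk.cons h1 (Walk.cons h2 Walk.nil))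
    have h4 : G.dist x v ≠ 1 := fun h => hadj (dist_eq_one_iff_adj.mp h)
    have h5 : G.dist x v ≠ 0 := fun h => hne (hr.dist_eq_zero_iff.mp h)
    omega

lemma nbhd_induce_iso {V : Type} {G : SimpleGraph V} (φ : G ≃g G) (x : V) (k : ℕ) :
    Nonempty (G.induce (nbhd G (φ x) k) ≃g G.induce (nbhd G x k)) := by
  refine ⟨(⟨Equiv.subtypeEquiv φ.toEquiv fun v => (nbhd_iso φ x k v).symm, ?_⟩ :
    G.induce (nbhd G x k) ≃g G.induce (nbhd G (φ x) k)).symm⟩
  intro a b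
  exact φ.map_rel_iff'

set_option maxRecDepth 100000 in
/-- no vertex of `H` is adjacent to all the others -/
lemma exists_nonadj : ∀ y : Fin 64, y ≠ 0 → ∃ z : Fin 64, z ≠ 0 ∧ z ≠ y ∧
    f (xo z y) ≠ (f z ^^ f y) := by
  decide

lemma iso_one : Nonempty (G.induce (nbhd G (0, false) 1) ≃g H) := by
  refine ⟨⟨⟨fun p => ⟨p.1.1, ?_⟩, fun y => ⟨(y.1, f y.1), ?_⟩, ?_, ?_⟩, ?_⟩⟩
  · have h := mem_nbhd_one.mp p.2
    exact h.1.symm
  · rw [mem_nbhd_one]
    refine ⟨y.2.symm, ?_⟩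
    show f (xo 0 y.1) = (false ^^ f y.1)
    rw [zero_xo, Bool.false_xor]
  · rintro ⟨⟨x, a⟩, hp⟩
    have h := mem_nbhd_one.mp hp
    have h2 : f (xo 0 x) = (false ^^ a) := h.2
    rw [zero_xo, Bool.false_xor] at h2
    subst h2
    rfl
  · rintro ⟨y, hy⟩
    rfl
  · rintro ⟨⟨x, a⟩, hp⟩ ⟨⟨y, b⟩, hq⟩
    have h := (mem_nbhd_one.mp hp).2
    have h' := (mem_nbhd_one.mp hq).2
    have h2 : f (xo 0 x) = (false ^^ a) := h
    have h3 : f (xo 0 y) = (false ^^ b) := h'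
    rw [zero_xo, Bool.false_xor] at h2 h3
    subst h2
    subst h3
    exact Iff.rfl

lemma iso_two : Nonempty (G.induce (nbhd G (0, false) 2) ≃g H) := by
  have key : ∀ x : Fin 64, ∀ a : Bool, ((x, a) : Fin 64 × Bool) ∈ nbhd G (0, false) 2 ↔
      x ≠ 0 ∧ a = !(f x) := by
    intro x a
    rw [mem_nbhd_two]
    constructor
    · rintro ⟨h1, h2, ⟨⟨z, c⟩, h3, h4⟩⟩
      have h3' : f (xo 0 z) = (false ^^ c) := h3.2
      have h4' : f (xo z x) = (c ^^ a) := h4.2
      rw [zero_xo, Bool.false_xor] at h3'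
      have hx : x ≠ 0 := by
        rintro rfl
        rw [xo_zero, h3'] at h4'
        have ha : a = false := by
          cases a <;> cases c <;> simp at h4' ⊢
        exact h1 (by rw [ha])
      refine ⟨hx, ?_⟩
      by_contra hcon
      apply h2
      refine ⟨hx.symm, ?_⟩
      show f (xo 0 x) = (false ^^ a)
      rw [zero_xo, Bool.false_xor]
      generalize f x = t at hcon ⊢
      cases t <;> cases a <;> simp at hcon ⊢
    · rintro ⟨hx, rfl⟩
      refine ⟨?_, ?_, ?_⟩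
      · intro h
        exact hx (congrArg Prod.fst h).symm
      · rintro ⟨_, h⟩
        have h' : f (xo 0 x) = (false ^^ !(f x)) := h
        rw [zero_xo, Bool.false_xor] at h'
        generalize f x = t at h'
        cases t <;> simp at h'
      · obtain ⟨z, hz0, hzx, hz⟩ := exists_nonadj x hx
        refine ⟨(z, f z), ⟨hz0.symm, ?_⟩, ⟨hzx, ?_⟩⟩
        · show f (xo 0 z) = (false ^^ f z)
          rw [zero_xo, Bool.false_xor]
        · show f (xo z x) = (f z ^^ !(f x))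
          generalize f (xo z x) = t1 at hz ⊢
          generalize f z = t2 at hz ⊢
          generalize f x = t3 at hz ⊢
          cases t1 <;> cases t2 <;> cases t3 <;> simp at hz ⊢
  refine ⟨⟨⟨fun p => ⟨p.1.1, ?_⟩, fun y => ⟨(y.1, !(f y.1)), ?_⟩, ?_, ?_⟩, ?_⟩⟩
  · exact ((key p.1.1 p.1.2).mp p.2).1
  · rw [key]
    exact ⟨y.2, rfl⟩
  · rintro ⟨⟨x, a⟩, hp⟩
    have h2 := ((key x a).mp hp).2
    subst h2
    rfl
  · rintro ⟨y, hy⟩
    rfl
  · rintro ⟨⟨x, a⟩, hp⟩ ⟨⟨y, b⟩, hq⟩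
    have h2 := ((key x a).mp hp).2
    have h3 := ((key y b).mp hq).2
    subst h2
    subst h3
    show (x ≠ y ∧ f (xo x y) = (f x ^^ f y)) ↔ (x ≠ y ∧ f (xo x y) = ((!(f x)) ^^ !(f y)))
    have : ((!(f x)) ^^ !(f y)) = (f x ^^ f y) := by
      generalize f x = t1
      generalize f y = t2
      cases t1 <;> cases t2 <;> rfl
    rw [this]

lemma realizable : IsRealizable12 H := by
  refine ⟨Fin 64 × Bool, inferInstance, inferInstance, G, fun p => ?_⟩
  have h1 := nbhd_induce_iso (trans p) (0, false) 1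
  have h2 := nbhd_induce_iso (trans p) (0, false) 2
  rw [trans_zero] at h1 h2
  obtain ⟨a⟩ := h1
  obtain ⟨b⟩ := h2
  obtain ⟨c⟩ := iso_one
  obtain ⟨d⟩ := iso_two
  exact ⟨⟨a.trans c⟩, ⟨b.trans d⟩⟩

/-- A property of a vertex preserved by automorphisms. -/
def Special {W : Type} (H : SimpleGraph W) (y : W) : Prop :=
  ∀ z, H.Adj y z → ∃ z', H.Adj y z' ∧ H.Adj z z' ∧
    ∀ w, w ≠ y → w ≠ z → w ≠ z' → (H.Adj w y ↔ (H.Adj w z ↔ H.Adj w z'))

lemma special_of_iso {W : Type} {H : SimpleGraph W} (φ : H ≃g H) {y : W} (h : Special H y) :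
    Special H (φ y) := by
  intro z hz
  obtain ⟨z, rfl⟩ := φ.surjective z
  rw [φ.map_adj_iff] at hz
  obtain ⟨z', h1, h2, h3⟩ := h z hz
  refine ⟨φ z', φ.map_adj_iff.mpr h1, φ.map_adj_iff.mpr h2, ?_⟩
  intro w hw1 hw2 hw3
  obtain ⟨w, rfl⟩ := φ.surjective w
  rw [φ.map_adj_iff, φ.map_adj_iff, φ.map_adj_iff]
  exact h3 w (fun h => hw1 (by rw [h])) (fun h => hw2 (by rw [h])) (fun h => hw3 (by rw [h]))

/-- adjacency of `H` as a Boolean -/
def ad (y z : Fin 64) : Bool := decide (y ≠ z) && (f (xo y z) == (f y ^^ f z))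

lemma ad_iff {y z : Fin 64} (hy : y ≠ 0) (hz : z ≠ 0) : H.Adj ⟨y, hy⟩ ⟨z, hz⟩ ↔ ad y z = true := by
  unfold ad
  rw [Bool.and_eq_true, decide_eq_true_iff, beq_iff_eq]
  exact Iff.rfl

set_option maxRecDepth 100000 in
lemma special_compute : ∀ z : Fin 64, z ≠ 0 → ad 32 z = true →
    ad 32 (xo 32 z) = true ∧ ad z (xo 32 z) = true ∧ xo 32 z ≠ 0 ∧
    ∀ w : Fin 64, w ≠ 0 → w ≠ 32 → w ≠ z → w ≠ xo 32 z →
      (ad w 32 == (ad w z == ad w (xo 32 z))) = true := by
  decide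

set_option maxRecDepth 100000 in
lemma not_special_compute : ad 1 6 = true ∧ ∀ z : Fin 64, z ≠ 0 → ad 1 z = true →
    ad 6 z = true → ∃ w : Fin 64, w ≠ 0 ∧ w ≠ 1 ∧ w ≠ 6 ∧ w ≠ z ∧
      (ad w 1 == (ad w 6 == ad w z)) = false := by
  decide

lemma ad_true_iff {y z : Fin 64} {hy : y ≠ 0} {hz : z ≠ 0} :
    H.Adj ⟨y, hy⟩ ⟨z, hz⟩ ↔ ad y z = true := ad_iff hy hz

lemma special_32 : Special H ⟨32, by decide⟩ := by
  rintro ⟨z, hz⟩ h
  rw [ad_true_iff] at h
  obtain ⟨h1, h2, h3, h4⟩ := special_compute z hz h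
  refine ⟨⟨xo 32 z, h3⟩, ad_true_iff.mpr h1, ad_true_iff.mpr h2, ?_⟩
  rintro ⟨w, hw⟩ hw1 hw2 hw3
  have h5 := h4 w hw (fun h => hw1 (Subtype.ext h)) (fun h => hw2 (Subtype.ext h))
    (fun h => hw3 (Subtype.ext h))
  rw [ad_true_iff, ad_true_iff, ad_true_iff]
  generalize ad w 32 = t1 at h5 ⊢
  generalize ad w z = t2 at h5 ⊢
  generalize ad w (xo 32 z) = t3 at h5 ⊢
  cases t1 <;> cases t2 <;> cases t3 <;> simp at h5 ⊢

lemma not_special_1 : ¬ Special H ⟨1, by decide⟩ := by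
  intro h
  obtain ⟨h0, h1⟩ := not_special_compute
  obtain ⟨⟨z, hz⟩, h2, h3, h4⟩ := h ⟨6, by decide⟩ (ad_true_iff.mpr h0)
  rw [ad_true_iff] at h2 h3
  obtain ⟨w, hw, hw1, hw6, hwz, hw'⟩ := h1 z hz h2 h3
  have h5 := h4 ⟨w, hw⟩ (fun h => hw1 (congrArg Subtype.val h))
    (fun h => hw6 (congrArg Subtype.val h)) (fun h => hwz (congrArg Subtype.val h))
  rw [ad_true_iff, ad_true_iff, ad_true_iff] at h5
  generalize ad w 1 = t1 at h5 hw'
  generalize ad w 6 = t2 at h5 hw'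
  generalize ad w z = t3 at h5 hw'
  cases t1 <;> cases t2 <;> cases t3 <;> simp at h5 hw'

lemma not_vertexTransitive : ¬ IsVertexTransitive H := by
  intro h
  obtain ⟨φ, hφ⟩ := h ⟨32, by decide⟩ ⟨1, by decide⟩
  apply not_special_1
  rw [← hφ]
  exact special_of_iso φ special_32

set_option maxRecDepth 100000 in
lemma card_compute : ∀ y : Fin 64, y ≠ 0 →
    (Finset.univ.filter fun z : Fin 64 => z ≠ 0 ∧ ad y z = true).card = 30 := by
  decide

lemma regular : ∀ y, (H.neighborSet y).ncard = 30 := by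
  classical
  rintro ⟨y, hy⟩
  rw [← card_compute y hy, ← Set.ncard_coe_finset]
  refine Set.ncard_congr (fun z _ => z.1) ?_ ?_ ?_
  · rintro ⟨z, hz⟩ h
    simp only [Finset.coe_filter, Finset.mem_univ, true_and]
    exact ⟨hz, ad_true_iff.mp h⟩
  · rintro ⟨z, hz⟩ ⟨w, hw⟩ _ _ h
    exact Subtype.ext h
  · intro z hz
    simp only [Finset.coe_filter, Finset.mem_univ, true_and] at hz
    exact ⟨⟨z, hz.1⟩, ad_true_iff.mpr hz.2, rfl⟩

/-- **There is a regular `(1,2)`-realizable graph which is not vertex-transitive.** -/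
theorem result : ∃ (W : Type) (_ : Finite W) (H : SimpleGraph W) (d : ℕ),
    (∀ y, (H.neighborSet y).ncard = d) ∧ IsRealizable12 H ∧ ¬ IsVertexTransitive H :=
  ⟨_, inferInstance, H, 30, regular, realizable, not_vertexTransitive⟩

end Pool.Agent.Results.MP_824d98_co.BentNeighbourhoods
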